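import Mathlib
import Pool.Agent.X265.Geo.Base

/-!
# Bounds for the number of geodesic words of the first Grigorchuk group

`G` is the first Grigorchuk group, acting on finite words over `{0, 1}`, with the generating set
`S = {a, b, c, d}`. For all `n` the number of geodesic words of length `n` is at least `2 ^ ⌊n/2⌋` and at most
`24 (1 + √3) ^ ⌊n/2⌋`. So the exponential growth rate `γ` of the language of geodesics satisfies
`√2 ≤ γ ≤ √(1 + √3) < 1.653`.
-/

set_option autoImplicit false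

namespace Pool.Agent.Results.MP_912e5d_al.GeodesicGrowthBounds

open Pool.Agent.X265.Geo Filter Topology

theorem bounds (n : ℕ) : (2 : ℝ) ^ (n / 2) ≤ (geod n).ncard ∧
    ((geod n).ncard : ℝ) ≤ 24 * (1 + Real.sqrt 3) ^ (n / 2) := by
  constructor
  · exact_mod_cast lower n
  · have h1 : ((geod n).ncard : ℝ) ≤ 12 * (u (n / 2) : ℝ) := by exact_mod_cast upper n
    have h2 := u_le (n / 2)
    linarith

theorem root (x : ℝ) (hx : 0 ≤ x) (m : ℕ) (hm : 1 ≤ m) :
    (x ^ m) ^ (1 / ((2 * m : ℕ) : ℝ)) = Real.sqrt x := by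
  have h1 : (m : ℝ) ≠ 0 := by positivity
  rw [← Real.rpow_natCast x m, ← Real.rpow_mul hx, Real.sqrt_eq_rpow]
  congr 1
  push_cast
  field_simp

/-- Let `g n` be the number of geodesic words of length `n` over `{a, b, c, d}` in the first Grigorchuk group.
Then `2 ^ ⌊n/2⌋ ≤ g n ≤ 24 (1 + √3) ^ ⌊n/2⌋` for all `n`, and the limit `γ` of `(g n) ^ (1/n)` satisfies
`√2 ≤ γ ≤ √(1 + √3)`. -/
theorem result :
    (∀ n : ℕ, (2 : ℝ) ^ (n / 2) ≤ (geod n).ncard ∧
      ((geod n).ncard : ℝ) ≤ 24 * (1 + Real.sqrt 3) ^ (n / 2)) ∧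
    ∀ γ : ℝ, Tendsto (fun n : ℕ => ((geod n).ncard : ℝ) ^ (1 / (n : ℝ))) atTop (𝓝 γ) →
      Real.sqrt 2 ≤ γ ∧ γ ≤ Real.sqrt (1 + Real.sqrt 3) := by
  refine ⟨bounds, fun γ hγ => ?_⟩
  have h2 : Tendsto (fun m : ℕ => ((geod (2 * m)).ncard : ℝ) ^ (1 / ((2 * m : ℕ) : ℝ))) atTop (𝓝 γ) :=
    hγ.comp (tendsto_atTop_atTop.2 fun b => ⟨b, fun m hm => by omega⟩)
  have hd : ∀ m : ℕ, 2 * m / 2 = m := fun m => by omega
  constructor
  · refine ge_of_tendsto h2 ?_
    filter_upwards [eventually_ge_atTop 1] with m hm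
    rw [← root 2 (by norm_num) m hm]
    have h3 := (bounds (2 * m)).1
    rw [hd] at h3
    exact Real.rpow_le_rpow (by positivity) h3 (by positivity)
  · have h4 : Tendsto (fun m : ℕ => (24 : ℝ) ^ (1 / ((2 * m : ℕ) : ℝ)) * Real.sqrt (1 + Real.sqrt 3)) atTop
        (𝓝 ((24 : ℝ) ^ (0 : ℝ) * Real.sqrt (1 + Real.sqrt 3))) := by
      refine Tendsto.mul_const _ ?_
      have h5 : Tendsto (fun m : ℕ => 1 / ((2 * m : ℕ) : ℝ)) atTop (𝓝 0) :=
        tendsto_one_div_atTop_nhds_zero_nat.comp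
          (tendsto_atTop_atTop.2 fun b => ⟨b, fun m hm => by omega⟩ : Tendsto (fun m : ℕ => 2 * m) atTop atTop)
      exact ((Real.continuous_const_rpow (by norm_num : (24 : ℝ) ≠ 0)).tendsto 0).comp h5
    rw [Real.rpow_zero, one_mul] at h4
    refine le_of_tendsto_of_tendsto h2 h4 ?_
    filter_upwards [eventually_ge_atTop 1] with m hm
    have h3 := (bounds (2 * m)).2
    rw [hd] at h3
    rw [← root (1 + Real.sqrt 3) (by positivity) m hm, ← Real.mul_rpow (by norm_num) (by positivity)]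
    exact Real.rpow_le_rpow (by positivity) h3 (by positivity)

end Pool.Agent.Results.MP_912e5d_al.GeodesicGrowthBounds
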